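import Pool.Agent.H126R2.NC.L4

set_option autoImplicit false
set_option linter.unusedSectionVars false

/-!
Layers: for a class `X` of the nine-colouring and a subset `S` of `X` (both closed under two-edge
cuts) there is a family of circuits covering `S` eight times, `X \ S` zero times and every other
edge four times.
-/

namespace Pool.Agent.W497.FF

open Finset
open Pool.Agent.Helper879.ECD (F2 IsFlow f2_add_self f2_cases cn)
open Pool.Agent.H126R2.CDC (MGraph IsFl isFl_iff exists_flow8)
open Pool.Agent.H126R2.NC (InCone InLat InIntCone TC rep rep_tc rep_eq_of_tc rep_rep cover_minus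
  circuit_tc countP_sum)

variable {V E : Type} [Fintype V] [DecidableEq V] [Fintype E] [DecidableEq E]

/-- the cut condition for `G - X` -/
def NoOne (v : E × Bool → V) (X : Finset E) : Prop :=
  ∀ B : Finset V, cn (fun e => v (e, false)) (fun e => v (e, true)) (univ \ X) B ≠ 1

/-- two-edge cuts -/
abbrev TCv (v : E × Bool → V) (e f : E) : Prop :=
  TC (fun e => v (e, false)) (fun e => v (e, true)) e f

/-- flows of the graph -/
abbrev Flw (v : E × Bool → V) (g : E → F2) : Prop :=
  IsFlow (fun e => v (e, false)) (fun e => v (e, true)) g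

lemma circuit_avoid (G : MGraph V E) (v : E × Bool → V)
    (hv : ∀ e, G.ends e = s(v (e, false), v (e, true))) (X : Finset E) (hX : NoOne v X)
    (e : E) (he : e ∉ X) : ∃ C, G.IsCircuit C ∧ e ∈ C ∧ ∀ f ∈ C, f ∉ X := by
  obtain ⟨F, hF, hc⟩ := cover_minus G v hv X hX
  have h1 : 0 < F.countP (fun C => e ∈ C) := by rw [hc e, if_neg he]; norm_num
  obtain ⟨C, hC, heC⟩ := Multiset.countP_pos.1 h1
  refine ⟨C, hF C hC, heC, fun f hf hfX => ?_⟩
  have h2 : 0 < F.countP (fun C => f ∈ C) := Multiset.countP_pos.2 ⟨C, hC, hf⟩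
  rw [hc f, if_pos hfX] at h2
  exact absurd h2 (lt_irrefl 0)

/-- a flow of `G - X` over the group of order eight without zeros -/
lemma flow_off (v : E × Bool → V) (X : Finset E) (hX : NoOne v X) :
    ∃ y : Fin 3 → E → F2, (∀ i, Flw v (y i)) ∧ (∀ e ∈ X, ∀ i, y i e = 0) ∧
      ∀ e, e ∉ X → (y 0 e ≠ 0 ∨ y 1 e ≠ 0 ∨ y 2 e ≠ 0) := by
  classical
  obtain ⟨ψ, hψ0, hψ⟩ := exists_flow8 _ (fun e : E => if e ∈ X then v (e, false) else v (e, false))
    (fun e => if e ∈ X then v (e, false) else v (e, true)) rfl (by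
      intro B
      have h1 : cn (fun e : E => if e ∈ X then v (e, false) else v (e, false))
          (fun e => if e ∈ X then v (e, false) else v (e, true)) univ B =
          cn (fun e => v (e, false)) (fun e => v (e, true)) (univ \ X) B := by
        unfold cn
        congr 1
        ext e
        simp only [Finset.mem_filter, Finset.mem_univ, true_and, Finset.mem_sdiff]
        by_cases h : e ∈ X
        · simp [h]
        · simp [h]
      rw [h1]
      exact hX B)
  refine ⟨fun i e => if e ∈ X then 0 else ψ i e, ?_, ?_, ?_⟩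
  · intro i c
    refine Eq.trans ?_ (hψ i c)
    apply Finset.sum_congr rfl
    intro e _
    by_cases h : e ∈ X
    · simp only [h, if_true]
      rw [f2_add_self, mul_zero, zero_mul]
    · simp only [h, if_false]
  · intro e he i
    exact if_pos he
  · intro e he
    simp only [he, if_false]
    exact hψ0 e

lemma circuit_flow (G : MGraph V E) (v : E × Bool → V)
    (hv : ∀ e, G.ends e = s(v (e, false), v (e, true))) {C : Finset E} (hC : G.IsCircuit C) :
    Flw v (fun e => if e ∈ C then 1 else 0) :=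
  (isFl_iff v _).1 ((G.isEven_iff v hv C).1 hC.isEven)

/-- a flow with prescribed values on `X` -/
lemma flow_on (G : MGraph V E) (v : E × Bool → V)
    (hv : ∀ e, G.ends e = s(v (e, false), v (e, true))) (X : Finset E)
    (hXc : ∀ e ∈ X, ∀ f, TCv v e f → f ∈ X)
    (hX : ∀ Y ⊆ X, (∀ e ∈ Y, ∀ f, TCv v e f → f ∈ Y) → NoOne v Y)
    (S : Finset E) (hS : S ⊆ X) (hSc : ∀ e ∈ S, ∀ f, TCv v e f → f ∈ S) :
    ∃ z : E → F2, Flw v z ∧ ∀ e ∈ X, z e = if e ∈ S then 1 else 0 := by
  classical
  have h1 : ∀ r : E, ∃ C : Finset E, r ∈ X → G.IsCircuit C ∧ ∀ f ∈ X, (f ∈ C ↔ TCv v r f) := by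
    intro r
    by_cases hr : r ∈ X
    · have h2 : NoOne v (X.filter (fun f => ¬ TCv v r f)) := by
        apply hX _ (Finset.filter_subset _ _)
        intro e he f hef
        rw [Finset.mem_filter] at he ⊢
        exact ⟨hXc e he.1 f hef, fun h => he.2 (h.trans hef.symm)⟩
      obtain ⟨C, hC, hrC, havoid⟩ := circuit_avoid G v hv _ h2 r (by
        rw [Finset.mem_filter]
        exact fun h => h.2 (TC.refl _ _ r))
      refine ⟨C, fun _ => ⟨hC, fun f hf => ⟨fun hfC => ?_, fun h => ?_⟩⟩⟩
      · by_contra hn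
        exact havoid f hfC (Finset.mem_filter.2 ⟨hf, hn⟩)
      · exact (circuit_tc G v hv hC h).1 hrC
    · exact ⟨∅, fun h => absurd h hr⟩
  choose C hC using h1
  refine ⟨fun e => ∑ r ∈ S.filter (fun r => rep (fun e => v (e, false)) (fun e => v (e, true)) r = r),
    (if e ∈ C r then (1 : F2) else 0), ?_, ?_⟩
  · intro c
    simp only [Finset.sum_mul]
    rw [Finset.sum_comm]
    apply Finset.sum_eq_zero
    intro r hr
    exact circuit_flow G v hv (hC r (hS (Finset.mem_filter.1 hr).1)).1 c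
  · intro f hf
    dsimp only
    by_cases hfS : f ∈ S
    · rw [if_pos hfS]
      have hrep : rep (fun e => v (e, false)) (fun e => v (e, true)) f ∈
          S.filter (fun r => rep (fun e => v (e, false)) (fun e => v (e, true)) r = r) := by
        rw [Finset.mem_filter]
        exact ⟨hSc f hfS _ (rep_tc _ _ f).symm, rep_rep _ _ f⟩
      rw [Finset.sum_eq_single_of_mem _ hrep]
      · rw [if_pos]
        exact ((hC _ (hS (Finset.mem_filter.1 hrep).1)).2 f hf).2 (rep_tc _ _ f)
      · intro r hr hne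
        rw [if_neg]
        intro hfC
        rw [Finset.mem_filter] at hr
        have h2 : TCv v r f := ((hC r (hS hr.1)).2 f hf).1 hfC
        apply hne
        rw [← hr.2]
        exact rep_eq_of_tc h2
    · rw [if_neg hfS]
      apply Finset.sum_eq_zero
      intro r hr
      rw [if_neg]
      intro hfC
      rw [Finset.mem_filter] at hr
      exact hfS (hSc r hr.1 f (((hC r (hS hr.1)).2 f hf).1 hfC))

lemma count_on : ∀ z : F2, (∑ β : F2 × F2 × F2,
    (if β.1 * 0 + β.2.1 * 0 + β.2.2 * 0 + z = 1 then 1 else 0)) = if z = 1 then 8 else 0 := by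
  decide

lemma count_off : ∀ y0 y1 y2 z : F2, (y0 ≠ 0 ∨ y1 ≠ 0 ∨ y2 ≠ 0) →
    (∑ β : F2 × F2 × F2, (if β.1 * y0 + β.2.1 * y1 + β.2.2 * y2 + z = 1 then 1 else 0)) = 4 := by
  decide

lemma flw_comb (v : E × Bool → V) (y0 y1 y2 z : E → F2) (h0 : Flw v y0) (h1 : Flw v y1)
    (h2 : Flw v y2) (hz : Flw v z) (β0 β1 β2 : F2) :
    Flw v (fun e => β0 * y0 e + β1 * y1 e + β2 * y2 e + z e) := by
  intro c
  have e0 := h0 c
  have e1 := h1 c
  have e2 := h2 c
  have ez := hz c
  have h : ∑ e, (β0 * y0 e + β1 * y1 e + β2 * y2 e + z e) * (c (v (e, false)) + c (v (e, true))) =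
      β0 * (∑ e, y0 e * (c (v (e, false)) + c (v (e, true)))) +
      β1 * (∑ e, y1 e * (c (v (e, false)) + c (v (e, true)))) +
      β2 * (∑ e, y2 e * (c (v (e, false)) + c (v (e, true)))) +
      ∑ e, z e * (c (v (e, false)) + c (v (e, true))) := by
    rw [Finset.mul_sum, Finset.mul_sum, Finset.mul_sum, ← Finset.sum_add_distrib,
      ← Finset.sum_add_distrib, ← Finset.sum_add_distrib]
    apply Finset.sum_congr rfl
    intro e _
    ring
  refine h.trans ?_
  rw [e0, e1, e2, ez]
  simp

/-- The layer. -/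
theorem layer (G : MGraph V E) (v : E × Bool → V)
    (hv : ∀ e, G.ends e = s(v (e, false), v (e, true))) (X : Finset E)
    (hXc : ∀ e ∈ X, ∀ f, TCv v e f → f ∈ X)
    (hX : ∀ Y ⊆ X, (∀ e ∈ Y, ∀ f, TCv v e f → f ∈ Y) → NoOne v Y)
    (S : Finset E) (hS : S ⊆ X) (hSc : ∀ e ∈ S, ∀ f, TCv v e f → f ∈ S) :
    ∃ F : Multiset (Finset E), (∀ C ∈ F, G.IsCircuit C) ∧
      ∀ e, F.countP (fun C => e ∈ C) = if e ∈ X then (if e ∈ S then 8 else 0) else 4 := by
  classical
  obtain ⟨z, hz, hzX⟩ := flow_on G v hv X hXc hX S hS hSc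
  obtain ⟨y, hy, hy0, hy1⟩ := flow_off v X (hX X (Finset.Subset.refl X) hXc)
  let g : F2 × F2 × F2 → E → F2 := fun β e =>
    β.1 * y 0 e + β.2.1 * y 1 e + β.2.2 * y 2 e + z e
  have hg : ∀ β, Flw v (g β) := fun β => flw_comb v _ _ _ _ (hy 0) (hy 1) (hy 2) hz _ _ _
  have hev : ∀ β, G.IsEven (univ.filter (fun e => g β e = 1)) := by
    intro β
    rw [G.isEven_iff v hv, isFl_iff]
    have h1 : (fun e => if e ∈ univ.filter (fun e => g β e = 1) then (1 : F2) else 0) = g β := by
      ext e
      rcases f2_cases (g β e) with h | h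
      · rw [if_neg, h]
        rw [Finset.mem_filter, h]
        exact fun h => zero_ne_one h.2
      · rw [if_pos, h]
        exact Finset.mem_filter.2 ⟨Finset.mem_univ _, h⟩
    rw [h1]
    exact hg β
  choose F hF1 hF2 using fun β => G.decompose _ _ rfl (hev β)
  refine ⟨∑ β, F β, ?_, ?_⟩
  · intro C hC
    rw [Multiset.mem_sum] at hC
    obtain ⟨c, _, hc⟩ := hC
    exact hF1 c C hc
  · intro e
    rw [countP_sum]
    have h2 : ∀ β ∈ (univ : Finset (F2 × F2 × F2)), (F β).countP (fun C => e ∈ C) =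
        if β.1 * y 0 e + β.2.1 * y 1 e + β.2.2 * y 2 e + z e = 1 then 1 else 0 := by
      intro β _
      rw [hF2 β e]
      simp [g]
    rw [Finset.sum_congr rfl h2]
    by_cases he : e ∈ X
    · rw [if_pos he, hy0 e he 0, hy0 e he 1, hy0 e he 2, count_on, hzX e he]
      by_cases heS : e ∈ S
      · simp [heS]
      · simp [heS]
    · rw [if_neg he]
      exact count_off _ _ _ _ (hy1 e he)

end Pool.Agent.W497.FF
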