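import Pool.Agent.W497.FF.Layer

set_option autoImplicit false
set_option linter.unusedSectionVars false

/-!
Circuit covers for all weights in an interval `[l, h]` with `4 h + 107 ≤ 5 l`.
-/

namespace Pool.Agent.W497.FF

open Finset
open Pool.Agent.Helper879.ECD (F2 IsFlow f2_add_self f2_cases cn)
open Pool.Agent.H126R2.CDC (MGraph IsFl isFl_iff)
open Pool.Agent.H126R2.NC (InCone InLat InIntCone TC cover_minus countP_sum
  nine_colouring_bridgeless bridgeless_of_cone const_of_tc cone_lat_of_intCone)

variable {V E : Type} [Fintype V] [DecidableEq V] [Fintype E] [DecidableEq E]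

lemma sum_class (c : Fin 3 × Fin 3) (A B : ℕ) :
    ∑ γ : Fin 3 × Fin 3, (if c = γ then A else B) = A + 8 * B := by
  rw [← Finset.add_sum_erase univ _ (Finset.mem_univ c), if_pos rfl]
  congr 1
  have h : ∀ γ ∈ univ.erase c, (if c = γ then A else B) = B := by
    intro γ hγ
    rw [if_neg]
    exact fun h => (Finset.ne_of_mem_erase hγ) h.symm
  rw [Finset.sum_congr rfl h, Finset.sum_const, Finset.card_erase_of_mem (Finset.mem_univ c)]
  simp

lemma sum_range_ite (n m k : ℕ) (h : m ≤ n) :
    ∑ t ∈ Finset.range n, (if t < m then k else 0) = k * m := by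
  rw [← Finset.sum_filter]
  have h7 : (Finset.range n).filter (fun t => t < m) = Finset.range m := by
    ext t
    rw [Finset.mem_filter, Finset.mem_range, Finset.mem_range]
    omega
  rw [h7, Finset.sum_const, Finset.card_range, smul_eq_mul, mul_comm]

theorem core (G : MGraph V E) (v : E × Bool → V)
    (hv : ∀ e, G.ends e = s(v (e, false), v (e, true))) (hbr : G.Bridgeless) (p : E → ℕ)
    (hev : ∀ e, Even (p e)) (a b : ℕ) (ha : 3 ≤ a) (hlo : ∀ e, 16 * a + 32 * b ≤ p e)
    (hhi : ∀ e, p e ≤ 18 * a + 40 * b) (htc : ∀ e f, TCv v e f → p e = p f) :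
    InIntCone G p := by
  classical
  obtain ⟨col, hcol1, hcol2⟩ := nine_colouring_bridgeless (fun e => v (e, false))
    (fun e => v (e, true)) (G.no_one_cut hbr v hv)
  let s : E → ℕ := fun e => 18 * a + 40 * b - p e
  let u : E → ℕ := fun e => min b (s e / 8)
  let w : E → ℕ := fun e => (s e - 8 * u e) / 2
  have hs : ∀ e, p e + 8 * u e + 2 * w e = 18 * a + 40 * b ∧ u e ≤ b ∧ w e ≤ a := by
    intro e
    obtain ⟨q, hq⟩ := hev e
    have h1 := hlo e
    have h2 := hhi e
    simp only [s, u, w]
    omega
  have hstc : ∀ e f, TCv v e f → u e = u f ∧ w e = w f := by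
    intro e f hef
    have h1 := htc e f hef
    simp only [s, u, w, h1, and_self]
  have hcov1 : ∀ (t : ℕ) (γ : Fin 3 × Fin 3), ∃ F : Multiset (Finset E),
      (∀ C ∈ F, G.IsCircuit C) ∧ ∀ e, F.countP (fun C => e ∈ C) =
        if e ∈ univ.filter (fun e => t < w e ∧ col e = γ) then 0 else 2 := by
    intro t γ
    apply cover_minus G v hv
    apply hcol2 _ γ
    · intro e he
      exact (Finset.mem_filter.1 he).2.2
    · intro e he f hef
      rw [Finset.mem_filter] at he ⊢
      refine ⟨Finset.mem_univ _, ?_, ?_⟩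
      · rw [← (hstc e f hef).2]; exact he.2.1
      · rw [← hcol1 e f hef]; exact he.2.2
  have hcov2 : ∀ (t : ℕ) (γ : Fin 3 × Fin 3), ∃ F : Multiset (Finset E),
      (∀ C ∈ F, G.IsCircuit C) ∧ ∀ e, F.countP (fun C => e ∈ C) =
        if e ∈ univ.filter (fun e => col e = γ) then
          (if e ∈ univ.filter (fun e => t < b - u e ∧ col e = γ) then 8 else 0) else 4 := by
    intro t γ
    apply layer G v hv
    · intro e he f hef
      rw [Finset.mem_filter] at he ⊢
      exact ⟨Finset.mem_univ _, by rw [← hcol1 e f hef]; exact he.2⟩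
    · intro Y hY hYc
      exact hcol2 Y γ (fun e he => (Finset.mem_filter.1 (hY he)).2) hYc
    · intro e he
      rw [Finset.mem_filter] at he ⊢
      exact ⟨Finset.mem_univ _, he.2.2⟩
    · intro e he f hef
      rw [Finset.mem_filter] at he ⊢
      refine ⟨Finset.mem_univ _, ?_, ?_⟩
      · rw [← (hstc e f hef).1]; exact he.2.1
      · rw [← hcol1 e f hef]; exact he.2.2
  choose F1 hF11 hF12 using hcov1
  choose F2' hF21 hF22 using hcov2
  refine ⟨∑ x ∈ (Finset.range a) ×ˢ (univ : Finset (Fin 3 × Fin 3)), F1 x.1 x.2 +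
    ∑ x ∈ (Finset.range b) ×ˢ (univ : Finset (Fin 3 × Fin 3)), F2' x.1 x.2, ?_, ?_⟩
  · intro C hC
    rw [Multiset.mem_add] at hC
    rcases hC with hC | hC
    · rw [Multiset.mem_sum] at hC
      obtain ⟨c, _, hc⟩ := hC
      exact hF11 _ _ C hc
    · rw [Multiset.mem_sum] at hC
      obtain ⟨c, _, hc⟩ := hC
      exact hF21 _ _ C hc
  · intro e
    obtain ⟨hse, hu, hw⟩ := hs e
    rw [Multiset.countP_add, countP_sum, countP_sum, Finset.sum_product, Finset.sum_product]
    dsimp only
    have h1 : ∑ t ∈ Finset.range a, ∑ γ : Fin 3 × Fin 3, (F1 t γ).countP (fun C => e ∈ C) +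
        2 * w e = 18 * a := by
      have h2 : ∀ t ∈ Finset.range a, ∑ γ : Fin 3 × Fin 3, (F1 t γ).countP (fun C => e ∈ C) +
          (if t < w e then 2 else 0) = 18 := by
        intro t _
        have h3 : ∀ γ ∈ (univ : Finset (Fin 3 × Fin 3)), (F1 t γ).countP (fun C => e ∈ C) =
            if col e = γ then (if t < w e then 0 else 2) else 2 := by
          intro γ _
          rw [hF12 t γ e]
          by_cases h4 : t < w e
          · by_cases h5 : col e = γ
            · simp [h4, h5]
            · simp [h5]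
          · simp [h4]
        rw [Finset.sum_congr rfl h3, sum_class]
        split_ifs <;> norm_num
      have h5 := Finset.sum_congr rfl h2
      rw [Finset.sum_add_distrib, sum_range_ite a (w e) 2 hw, Finset.sum_const,
        Finset.card_range, smul_eq_mul] at h5
      omega
    have h2 : ∑ t ∈ Finset.range b, ∑ γ : Fin 3 × Fin 3, (F2' t γ).countP (fun C => e ∈ C) =
        32 * b + 8 * (b - u e) := by
      have h2 : ∀ t ∈ Finset.range b, ∑ γ : Fin 3 × Fin 3, (F2' t γ).countP (fun C => e ∈ C) =
          32 + (if t < b - u e then 8 else 0) := by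
        intro t _
        have h3 : ∀ γ ∈ (univ : Finset (Fin 3 × Fin 3)), (F2' t γ).countP (fun C => e ∈ C) =
            if col e = γ then (if t < b - u e then 8 else 0) else 4 := by
          intro γ _
          rw [hF22 t γ e]
          by_cases h5 : col e = γ
          · by_cases h4 : t < b - u e
            · simp [h4, h5]
            · simp [h4, h5]
          · simp [h5]
        rw [Finset.sum_congr rfl h3, sum_class]
        split_ifs <;> norm_num
      rw [Finset.sum_congr rfl h2, Finset.sum_add_distrib,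
        sum_range_ite b (b - u e) 8 (Nat.sub_le _ _), Finset.sum_const,
        Finset.card_range, smul_eq_mul]
      omega
    rw [h2]
    omega

lemma f2_cast (n : ℕ) : (((n : ℕ) : ℤ) : F2) = if Odd n then 1 else 0 := by
  rw [Int.cast_natCast]
  by_cases h : Odd n
  · rw [if_pos h]
    exact (ZMod.natCast_eq_one_iff_odd).2 h
  · rw [if_neg h]
    rw [Nat.not_odd_iff_even] at h
    exact (ZMod.natCast_eq_zero_iff_even).2 h

lemma flow_of_lat (G : MGraph V E) (v : E × Bool → V)
    (hv : ∀ e, G.ends e = s(v (e, false), v (e, true))) (x : E → ℤ)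
    (hx : x ∈ AddSubgroup.closure
      {x : E → ℤ | ∃ C, G.IsCircuit C ∧ x = fun e => if e ∈ C then 1 else 0}) :
    Flw v (fun e => ((x e : ℤ) : F2)) := by
  induction hx using AddSubgroup.closure_induction with
  | mem x hx =>
    obtain ⟨C, hC, rfl⟩ := hx
    have h := circuit_flow G v hv hC
    convert h using 2 with e
    by_cases he : e ∈ C <;> simp [he]
  | zero => intro c; simp
  | add x y _ _ hx hy =>
    intro c
    have h1 := hx c
    have h2 := hy c
    have h3 : ∑ e, (((x + y) e : ℤ) : F2) * (c (v (e, false)) + c (v (e, true))) =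
        ∑ e, ((x e : ℤ) : F2) * (c (v (e, false)) + c (v (e, true))) +
        ∑ e, ((y e : ℤ) : F2) * (c (v (e, false)) + c (v (e, true))) := by
      rw [← Finset.sum_add_distrib]
      apply Finset.sum_congr rfl
      intro e _
      rw [Pi.add_apply, Int.cast_add]
      ring
    rw [h3, h1, h2, add_zero]
  | neg x _ hx =>
    intro c
    have h1 := hx c
    have h3 : ∑ e, (((-x) e : ℤ) : F2) * (c (v (e, false)) + c (v (e, true))) =
        - ∑ e, ((x e : ℤ) : F2) * (c (v (e, false)) + c (v (e, true))) := by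
      rw [← Finset.sum_neg_distrib]
      apply Finset.sum_congr rfl
      intro e _
      rw [Pi.neg_apply, Int.cast_neg]
      ring
    rw [h3, h1, neg_zero]

/-- Weights, even or not, in a short interval, in the cone and the lattice of the circuits. -/
theorem cover_of_range (G : MGraph V E) (p : E → ℕ) (hr : ∀ e f, 4 * p e + 107 ≤ 5 * p f)
    (hp : InCone G p) (hlat : InLat G p) : InIntCone G p := by
  classical
  by_cases hE : IsEmpty E
  · exact ⟨0, by simp, fun e => (hE.false e).elim⟩
  rw [not_isEmpty_iff] at hE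
  obtain ⟨v, hv⟩ := G.exists_halves
  have hpos : ∀ e, 0 < p e := fun e => by have := hr e e; omega
  have hbr := bridgeless_of_cone G p hp hpos
  have hD : G.IsEven (univ.filter (fun e => Odd (p e))) := by
    rw [G.isEven_iff v hv, isFl_iff]
    have h1 := flow_of_lat G v hv _ hlat
    have h2 : (fun e => if e ∈ univ.filter (fun e => Odd (p e)) then (1 : F2) else 0) =
        fun e => (((p e : ℕ) : ℤ) : F2) := by
      ext e
      rw [f2_cast]
      simp
    rw [h2]
    exact h1
  obtain ⟨FD, hFD1, hFD2⟩ := G.decompose _ _ rfl hD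
  let q : E → ℕ := fun e => p e - (if Odd (p e) then 1 else 0)
  have hq1 : ∀ e, q e + (if Odd (p e) then 1 else 0) = p e := by
    intro e
    have := hpos e
    simp only [q]
    split_ifs <;> omega
  have hq2 : ∀ e, Even (q e) := by
    intro e
    simp only [q]
    split_ifs with h
    · obtain ⟨k, hk⟩ := h
      exact ⟨k, by omega⟩
    · rw [Nat.not_odd_iff_even] at h
      simpa using h
  have hq3 : ∀ e, q e ≤ p e ∧ p e ≤ q e + 1 := by
    intro e
    have := hq1 e
    split_ifs at this <;> omega
  obtain ⟨e1, -, he1⟩ := Finset.exists_min_image (univ : Finset E) q (Finset.univ_nonempty)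
  obtain ⟨e0, -, he0⟩ := Finset.exists_max_image (univ : Finset E) q (Finset.univ_nonempty)
  have hqr : 4 * q e0 + 102 ≤ 5 * q e1 := by
    have h1 := hr e0 e1
    have h2 := hq3 e0
    have h3 := hq3 e1
    omega
  have hle := he1 e0 (Finset.mem_univ _)
  have hab : ∃ a b : ℕ, 3 ≤ a ∧ 16 * a + 32 * b ≤ q e1 ∧ q e0 ≤ 18 * a + 40 * b := by
    obtain ⟨m, hm⟩ := hq2 e1
    rcases Nat.even_or_odd (q e1 / 16) with h | h
    · obtain ⟨k, hk⟩ := h
      refine ⟨4, k - 2, by norm_num, ?_, ?_⟩ <;> omega
    · obtain ⟨k, hk⟩ := h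
      refine ⟨3, k - 1, by norm_num, ?_, ?_⟩ <;> omega
  obtain ⟨a, b, ha, hlo, hhi⟩ := hab
  obtain ⟨F, hF1, hF2⟩ := core G v hv hbr q hq2 a b ha
    (fun e => le_trans hlo (he1 e (Finset.mem_univ _)))
    (fun e => le_trans (he0 e (Finset.mem_univ _)) hhi) (by
      intro e f hef
      have h1 := const_of_tc G v hv p hp hef
      simp only [q, h1])
  refine ⟨F + FD, ?_, ?_⟩
  · intro C hC
    rw [Multiset.mem_add] at hC
    rcases hC with hC | hC
    · exact hF1 C hC
    · exact hFD1 C hC
  · intro e
    rw [Multiset.countP_add, hF2 e, hFD2 e]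
    have h1 := hq1 e
    simpa using h1

theorem range_iff (G : MGraph V E) (p : E → ℕ) (hr : ∀ e f, 4 * p e + 107 ≤ 5 * p f) :
    InIntCone G p ↔ InCone G p ∧ InLat G p :=
  ⟨cone_lat_of_intCone G p, fun h => cover_of_range G p hr h.1 h.2⟩

end Pool.Agent.W497.FF
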